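import Pool.Agent.P8H84.MX.A2
import Pool.Agent.P8H84.MX.PartB
import Pool.Agent.P8H84.MX.C5
import Pool.Agent.P8H84.MX.E
import Pool.Agent.P8H84.MX.G
import Pool.Agent.P8H84.MX.PartH
import Pool.Agent.P8H84.MX.P4h
import Pool.Agent.P8H84.MX.P1a
import Pool.Agent.P8H84.MX.PartP1b
import Pool.Agent.P8H84.MX.P2
import Pool.Agent.P8H84.MX.P3a
import Pool.Agent.P8H84.MX.P3b
import Pool.Agent.P8H84.MX.PartP4b
import Pool.Agent.P8H84.MX.Q1
import Pool.Agent.P8H84.MX.Q2
import Pool.Agent.P8H84.MX.PartF

/-!
# Uniform mixing of vertex-transitive graphs is not robust under quasi-isometries

There are finite connected vertex-transitive graphs `G` of degree `20` (Cayley graphs of lamplighter groups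
`(ZMod 5) ≀ L` over finite expanders `L`) and finite connected graphs `G'` of bounded degree, quasi-isometric to
`G` with constants `(1, b)`, such that the uniform (or `L^∞`) mixing time of the lazy simple random walk on `G'`
is larger than that of `G` by an arbitrary factor.

Idea of the proof (project MX: helper84 with helpers 3, 7, 13, 24, 48, 67, 71, 89, 95). `L` is a finite group of
size about `exp N` with twelve generators which make it an expander, and with an element `h` of order `N`. The
graph `G` has the steps of the marker, a toggle of the lamp at the marker, and a second toggle, which adds a word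
`b` to the lamps of the coset of `h` at the marker; here the double circulant code of `b` has a large distance. By
characters, the walk on `G` is mixed at a time of order `|L|`. The edges of `G` get bounded integral weights, which
depend on the levels (distances to the all-off state in the code) of the lamp configurations on finitely many
cosets of `h`. These cosets are organised in a hierarchy of scales, and the parity of the levels of the blocks of
a smaller scale tells the walk which edges of the larger block are slow; so the largest block needs a time of order
`M |L|` to be randomised. The weighted graph is replaced by a graph of bounded degree with clusters of equal size.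
(The plan of the perturbation extends the one used for complete-graph factors of unbounded degree in
`Pool.Agent.H521R4.RB`, which settled the version of the question for bounded edge weights and unbounded degrees.)
-/

set_option autoImplicit false

namespace Pool.Agent.Results.MP_50f558_pr.MixingNotRobust

open Pool.Agent.P8H84.MX

/-- There are `b ≥ 0` and `D` such that for every `C > 0` there are a finite connected vertex-transitive graph `G`
of degree `20` and a finite connected graph `G'`, regular of degree `D`, which is `(1, b)`-quasi-isometric to `G`,
with uniform mixing times `t`, `t'` such that `C t < t'`. -/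
theorem result : ∃ (b : ℝ) (D : ℕ), 0 ≤ b ∧ ∀ C : ℝ, 0 < C →
    ∃ (V V' : Type) (_ : Fintype V) (_ : Fintype V') (_ : DecidableEq V) (_ : DecidableEq V')
      (G : SimpleGraph V) (G' : SimpleGraph V') (t t' : ℕ),
      G.Connected ∧ G'.Connected ∧ (∀ x y, ∃ φ : G ≃g G, φ x = y) ∧
      (∀ x, Nat.card (G.neighborSet x) = 20) ∧ (∀ x, Nat.card (G'.neighborSet x) = D) ∧
      QuasiIsometric 1 b G G' ∧ IsLeast {t : ℕ | Mixed G t} t ∧ IsLeast {t : ℕ | Mixed G' t} t' ∧
      C * t < t' :=
  part_F2 part_A part_B part_C
    (part_P part_P1a part_P1b part_P2 part_P3a part_P3b part_P4b part_Q1 part_Q2)
    part_G part_H part_E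

end Pool.Agent.Results.MP_50f558_pr.MixingNotRobust
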